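import Pool.Agent.Helper78_M100.Lad3
import Pool.Agent.MT100.StmtsH

/-! MT100, module LAD, fourth part: the Zariski closure. -/

set_option autoImplicit false
set_option linter.unusedSectionVars false
set_option linter.unusedSimpArgs false

namespace Pool.Agent.MT100.H78

open Matrix Module Pool.Agent.Helper78_MT

section rankone

variable {n : Type*} [Fintype n] [DecidableEq n] {F : Type*} [Field F] [CharZero F]

theorem selfz {E : Matrix n n F} (hskew : Eᵀ = -E) (w : n → F) : bil E w w = 0 := by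
  have h := skewm hskew w w
  have h2 : (2 : F) * bil E w w = 0 := by linear_combination h
  exact (mul_eq_zero.mp h2).resolve_left two_ne_zero

/-- a similitude `1 + N` with `N` of rank one is a transvection -/
theorem rank_one {E R : Matrix n n F} (hE : IsUnit E.det) (hskew : Eᵀ = -E)
    (hn : 2 < Fintype.card n) {c : F} (hR : Rᵀ * E * R = c • E) (hr : (R - 1).rank = 1) :
    ∃ (v : n → F) (t : F), v ≠ 0 ∧ t ≠ 0 ∧ R - 1 = t • s2 E v v := by
  obtain ⟨w, hw0, hw⟩ : ∃ w : n → F, w ≠ 0 ∧ ∀ u, ∃ a : F, (R - 1) *ᵥ u = a • w := by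
    have h1 : finrank F (LinearMap.range (R - 1).mulVecLin) = 1 := hr
    obtain ⟨⟨w, hwm⟩, hw0, hw⟩ := finrank_eq_one_iff'.mp h1
    refine ⟨w, fun h => hw0 (Subtype.ext h), ?_⟩
    intro u
    obtain ⟨a, ha⟩ := hw ⟨(R - 1) *ᵥ u, ⟨u, rfl⟩⟩
    exact ⟨a, (congrArg Subtype.val ha).symm⟩
  obtain ⟨i, hi⟩ : ∃ i, w i ≠ 0 := by
    by_contra hcon
    push Not at hcon
    exact hw0 (funext hcon)
  obtain ⟨f, hf⟩ : ∃ f : (n → F) →ₗ[F] F, ∀ u, (R - 1) *ᵥ u = f u • w := by
    refine ⟨(w i)⁻¹ • ((LinearMap.proj i : (n → F) →ₗ[F] F) ∘ₗ (R - 1).mulVecLin), ?_⟩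
    intro u
    obtain ⟨a, ha⟩ := hw u
    have h1 : ((w i)⁻¹ • ((LinearMap.proj i : (n → F) →ₗ[F] F) ∘ₗ (R - 1).mulVecLin)) u = a := by
      change (w i)⁻¹ * ((R - 1) *ᵥ u) i = a
      rw [ha]
      change (w i)⁻¹ * (a * w i) = a
      field_simp
    rw [h1, ha]
  have hR' : ∀ u, R *ᵥ u = u + f u • w := by
    intro u
    rw [← hf, sub_mulVec, one_mulVec]
    abel
  have sk := skewm hskew
  have hww := selfz hskew w
  have hrel : ∀ x y, bil E x y + f y * bil E x w + f x * bil E w y = c * bil E x y := by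
    intro x y
    have h1 := bil_mul E R R x y
    rw [hR, hR', hR', bil_apply (c • E), smul_mulVec, dotProduct_smul, smul_eq_mul,
      ← bil_apply] at h1
    simp only [map_add, map_smul, LinearMap.add_apply, LinearMap.smul_apply, smul_eq_mul, hww] at h1
    linear_combination h1
  have hc : c = 1 := by
    by_contra hc
    have hlt : finrank F (F × F) < finrank F (n → F) := by
      rw [Module.finrank_prod, Module.finrank_self, Module.finrank_fintype_fun_eq_card]
      exact hn
    obtain ⟨x, hx, hx0⟩ := Submodule.exists_mem_ne_zero_of_ne_bot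
      (LinearMap.ker_ne_bot_of_finrank_lt (f := f.prod (bil E w)) hlt)
    have hx1 : (f x, bil E w x) = (0 : F × F) := hx
    rw [Prod.mk_eq_zero] at hx1
    apply hx0
    apply nondeg hE
    intro y
    have h2 := hrel x y
    rw [hx1.1, sk x w, hx1.2] at h2
    have h3 : (1 - c) * bil E x y = 0 := by linear_combination h2
    exact (mul_eq_zero.mp h3).resolve_left (sub_ne_zero.mpr (Ne.symm hc))
  obtain ⟨x₀, hx₀⟩ : ∃ x, bil E w x ≠ 0 := by
    by_contra hcon
    push Not at hcon
    exact hw0 (nondeg hE w hcon)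
  have hf2 : ∀ y, f y = (f x₀ / bil E w x₀) * bil E w y := by
    intro y
    have h2 := hrel x₀ y
    rw [hc, sk x₀ w] at h2
    field_simp
    linear_combination -h2
  have hfx : f x₀ ≠ 0 := by
    intro h0
    have h1 : R - 1 = 0 := by
      apply ext_mulVec
      intro u
      rw [hf, hf2, h0, zero_div, zero_mul, zero_smul, zero_mulVec]
    rw [h1, rank_zero] at hr
    exact absurd hr (by norm_num)
  refine ⟨w, f x₀ / bil E w x₀ / 2, hw0, div_ne_zero (div_ne_zero hfx hx₀) two_ne_zero, ?_⟩
  apply ext_mulVec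
  intro u
  rw [hf, hf2, smul_mulVec, s2_mulVec]
  module

theorem s2_apply (E : Matrix n n F) (x y : n → F) (i j : n) :
    s2 E x y i j = (x ᵥ* E) j * y i + (y ᵥ* E) j * x i := by
  have h1 : s2 E x y i j = (s2 E x y *ᵥ Pi.single j 1) i := by simp
  rw [h1, s2_mulVec, Pi.add_apply, Pi.smul_apply, Pi.smul_apply, bil_apply, bil_apply,
    dotProduct_mulVec, dotProduct_mulVec]
  simp

variable {K : Type*} [Field K] [CharZero K] [Algebra F K]

theorem s2_map (E : Matrix n n F) (x y : n → F) : (s2 E x y).map (algebraMap F K) =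
    s2 (E.map (algebraMap F K)) (algebraMap F K ∘ x) (algebraMap F K ∘ y) := by
  ext i j
  rw [Matrix.map_apply, s2_apply, s2_apply, map_add, map_mul, map_mul, RingHom.map_vecMul,
    RingHom.map_vecMul]
  rfl

theorem bil_map (E : Matrix n n F) (x y : n → F) :
    bil (E.map (algebraMap F K)) (algebraMap F K ∘ x) (algebraMap F K ∘ y) =
      algebraMap F K (bil E x y) := by
  rw [bil_apply, bil_apply, RingHom.map_dotProduct]
  congr 1
  ext i
  exact (RingHom.map_mulVec (algebraMap F K) E y i).symm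

end rankone

section grp

variable {n : Type*} [Fintype n] [DecidableEq n] {K : Type*} [Field K] [CharZero K]

theorem conj_tr {E X X' : Matrix n n K} {μ : K} (hμ : Xᵀ * E * X = μ • E)
    (hXX : X * X' = 1) (v : n → K) (s : K) :
    X * (1 + (s * μ) • s2 E v v) * X' = 1 + s • s2 E (X *ᵥ v) (X *ᵥ v) := by
  apply ext_mulVec
  intro u
  have h1 : bil E (X *ᵥ v) u = μ * bil E v (X' *ᵥ u) := by
    have h2 : u = X *ᵥ (X' *ᵥ u) := by rw [mulVec_mulVec, hXX, one_mulVec]
    nth_rewrite 1 [h2]
    rw [bil_mul, hμ, bil_apply, bil_apply, smul_mulVec, dotProduct_smul, smul_eq_mul]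
  have h3 : X *ᵥ (X' *ᵥ u) = u := by rw [mulVec_mulVec, hXX, one_mulVec]
  rw [← mulVec_mulVec, ← mulVec_mulVec, add_mulVec, add_mulVec, one_mulVec, one_mulVec, smul_mulVec,
    smul_mulVec, s2_mulVec, s2_mulVec, h1, mulVec_add, mulVec_smul, mulVec_add, mulVec_smul, h3]
  module

theorem tr_sq {E : Matrix n n K} (hskew : Eᵀ = -E) (v : n → K) : s2 E v v * s2 E v v = 0 := by
  apply ext_mulVec
  intro u
  rw [← mulVec_mulVec, s2_mulVec, s2_mulVec, zero_mulVec]
  simp only [map_add, map_smul, selfz hskew v, smul_zero, add_zero, zero_smul]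

/-- A closed monoid whose Lie algebra contains all `s2 x x` contains the symplectic group. -/
theorem sp_le {E : Matrix n n K} (hE : IsUnit E.det) (hskew : Eᵀ = -E)
    {G : Set (Matrix n n K)} (hone : 1 ∈ G) (hmul : ∀ a ∈ G, ∀ b ∈ G, a * b ∈ G)
    (hcl : ∀ M : Matrix n n K, IsUnit M.det →
      (∀ p : MvPolynomial (n × n) K, (∀ g ∈ G, pev g p = 0) → pev M p = 0) → M ∈ G)
    (hL : ∀ x, s2 E x x ∈ lieOf G) (Y : Matrix n n K) (hY : Yᵀ * E * Y = E) : Y ∈ G := by
  let S : Set (Module.End K (n → K)) := {T | φm.symm T ∈ G}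
  have hSt : ∀ (v : n → K) (a : K), 1 + a • r1 (bil E) v v ∈ S := by
    intro v a
    change φm.symm (1 + a • r1 (bil E) v v) ∈ G
    have e1 : φm.symm (1 + a • r1 (bil E) v v) = 1 + (a / 2) • s2 E v v := by
      rw [s2, map_add, map_add, map_one, map_smul]
      module
    rw [e1]
    apply hcl
    · have h1 : (1 + (a / 2) • s2 E v v) * (1 - (a / 2) • s2 E v v) = 1 := by
        rw [mul_sub, mul_one, add_mul, one_mul, smul_mul_smul_comm, tr_sq hskew, smul_zero, add_zero,
          add_sub_cancel_right]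
      have h2 := congrArg det h1
      rw [det_mul, det_one] at h2
      exact IsUnit.of_mul_eq_one _ h2
    · intro p hp
      exact exp_mem hone (tr_sq hskew v) (hL v) (a / 2) p hp
  have hSm : ∀ a ∈ S, ∀ b ∈ S, a * b ∈ S := by
    intro a ha b hb
    change φm.symm (a * b) ∈ G
    rw [map_mul]
    exact hmul _ ha _ hb
  have hS1 : (1 : Module.End K (n → K)) ∈ S := by
    change φm.symm 1 ∈ G
    rw [map_one]; exact hone
  have h1 : φm Y ∈ S := by
    apply sp_gen (nondeg hE) (skewm hskew) hSm hS1 hSt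
    intro u v
    rw [φm_apply, φm_apply, bil_mul, hY]
  change φm.symm (φm Y) ∈ G at h1
  rwa [AlgEquiv.symm_apply_apply] at h1

/-- scalars -/
theorem scal {G : Set (Matrix n n K)} (hone : 1 ∈ G) (hmul : ∀ a ∈ G, ∀ b ∈ G, a * b ∈ G)
    (hcl : ∀ M : Matrix n n K, IsUnit M.det →
      (∀ p : MvPolynomial (n × n) K, (∀ g ∈ G, pev g p = 0) → pev M p = 0) → M ∈ G)
    {d : K} (hd0 : d ≠ 0) (hd : ∀ m : ℕ, 0 < m → d ^ m ≠ 1) (hdG : d • (1 : Matrix n n K) ∈ G)
    (t : K) (ht : t ≠ 0) : t • (1 : Matrix n n K) ∈ G := by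
  have hp1 : ∀ j : ℕ, (d ^ j) • (1 : Matrix n n K) ∈ G := by
    intro j
    induction j with
    | zero => rw [pow_zero, one_smul]; exact hone
    | succ j ih =>
      have : (d ^ (j + 1)) • (1 : Matrix n n K) = ((d ^ j) • 1) * (d • 1) := by
        rw [smul_mul_smul_comm, one_mul, pow_succ]
      rw [this]
      exact hmul _ ih _ hdG
  apply hcl
  · rw [det_smul, det_one, mul_one]
    exact (IsUnit.mk0 t ht).pow _
  · intro p hp
    have h4 : cev (lin 0 1) p = 0 := by
      apply Polynomial.eq_zero_of_infinite_isRoot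
      apply Set.infinite_of_injective_forall_mem (f := fun k : ℕ => d ^ k)
      · have key : ∀ a b : ℕ, a < b → d ^ a ≠ d ^ b := by
          intro a b hab h
          apply hd (b - a) (by omega)
          have h2 : d ^ a * d ^ (b - a) = d ^ a * 1 := by
            rw [← pow_add, mul_one, h]
            congr 1
            omega
          exact mul_left_cancel₀ (pow_ne_zero _ hd0) h2
        intro a b hab
        rcases lt_trichotomy a b with h | h | h
        · exact absurd hab (key a b h)
        · exact h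
        · exact absurd hab.symm (key b a h)
      · intro k
        change Polynomial.eval _ _ = 0
        rw [cev_eval, lin_eval, zero_add]
        exact hp _ (hp1 k)
    have h5 : pev (t • (1 : Matrix n n K)) p = (cev (lin 0 1) p).eval t := by
      rw [cev_eval, lin_eval, zero_add]
    rw [h5, h4, Polynomial.eval_zero]

end grp

end Pool.Agent.MT100.H78
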