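import Pool.Agent.Helper78_M100.Lad4

/-! MT100, module LAD: the theorem. -/

set_option autoImplicit false
set_option linter.unusedSectionVars false
set_option linter.unusedSimpArgs false

namespace Pool.Agent.MT100.H78

open Matrix Module Pool.Agent.Helper78_MT Pool.Agent.MT100

variable {n : Type*} [Fintype n] [DecidableEq n]

theorem ne_zero_of {E : Matrix n n ℚ} (hE : IsUnit E.det) (hn : 2 < Fintype.card n) : E ≠ 0 := by
  rintro rfl
  have h1 : Nonempty n := Fintype.card_pos_iff.mp (by omega)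
  rw [det_zero] at hE
  exact not_isUnit_zero hE

theorem sub_sim {F K Γ : Type*} [Field F] [CharZero F] [Field K] [CharZero K] [Algebra F K] [Group Γ]
    {E : Matrix n n ℚ} (hE0 : E ≠ 0) {ρ : Γ →* GL n F}
    (h : ∀ γ, (ρ γ : Matrix n n F) ∈ similitudes E F) : monodromy ρ K ⊆ similitudes E K := by
  intro M hM
  rw [← zeros_sim hE0]
  have h1 := hM ⊤ inferInstance
  refine ⟨h1.1, ?_⟩
  intro p hp
  have h2 := h1.2 (MvPolynomial.map (algebraMap ℚ F) p) (by
    rintro _ ⟨γ, -, rfl⟩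
    rw [pev_map]
    have h3 := h γ
    rw [← zeros_sim hE0] at h3
    exact h3.2 p hp)
  rwa [pev_map] at h2

section
variable {F K Γ : Type*} [Field F] [CharZero F] [Field K] [CharZero K] [Algebra F K] [Group Γ]

theorem map_E (E : Matrix n n ℚ) : (E.map (algebraMap ℚ F)).map (algebraMap F K) =
    E.map (algebraMap ℚ K) := by
  ext i j
  rw [Matrix.map_apply, Matrix.map_apply, Matrix.map_apply, ← IsScalarTower.algebraMap_apply]

theorem unit_E {E : Matrix n n ℚ} (hE : IsUnit E.det) : IsUnit (E.map (algebraMap ℚ K)).det := by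
  have h2 := hE.map (algebraMap ℚ K)
  rwa [RingHom.map_det, RingHom.mapMatrix_apply] at h2

theorem skew_E {E : Matrix n n ℚ} (hE : Eᵀ = -E) :
    (E.map (algebraMap ℚ K))ᵀ = -E.map (algebraMap ℚ K) := by
  rw [← transpose_map, hE]
  ext i j
  simp

theorem sim_map {EF R : Matrix n n F} {EK : Matrix n n K} (hEE : EF.map (algebraMap F K) = EK) {c : F}
    (h : Rᵀ * EF * R = c • EF) :
    (R.map (algebraMap F K))ᵀ * EK * R.map (algebraMap F K) = algebraMap F K c • EK := by
  rw [← hEE, ← transpose_map, ← Matrix.map_mul, ← Matrix.map_mul, h]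
  ext i j
  simp

theorem inv_map (ρ : Γ →* GL n F) (γ : Γ) : (ρ γ : Matrix n n F).map (algebraMap F K) *
    (ρ γ⁻¹ : Matrix n n F).map (algebraMap F K) = 1 := by
  rw [← Matrix.map_mul, ← Units.val_mul, ← map_mul, mul_inv_cancel, map_one, Units.val_one,
    Matrix.map_one _ (map_zero _) (map_one _)]

theorem vec_map (R : Matrix n n F) (v : n → F) : (algebraMap F K) ∘ (R *ᵥ v) =
    R.map (algebraMap F K) *ᵥ ((algebraMap F K) ∘ v) := by
  ext i
  exact RingHom.map_mulVec (algebraMap F K) R v i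

theorem core [IsAlgClosed K] {E : Matrix n n ℚ} {ρ : Γ →* GL n F} (hskew : Eᵀ = -E)
    (hE : IsUnit E.det) (hn : 2 < Fintype.card n) (h : BigMonodromy E ρ) :
    similitudes E K ⊆ monodromy ρ K := by
  rintro Y ⟨hY, c, hYc⟩
  have hne : Nonempty n := Fintype.card_pos_iff.mp (by omega)
  obtain ⟨Γ₁, hΓ₁, hG⟩ := exists_min (K := K) ρ
  have hEE := map_E (F := F) (K := K) E
  have hEFu : IsUnit (E.map (algebraMap ℚ F)).det := unit_E hE
  have hEKu : IsUnit (E.map (algebraMap ℚ K)).det := unit_E hE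
  have hEFs := skew_E (K := F) hskew
  have hEKs := skew_E (K := K) hskew
  have hsim : ∀ γ, ∃ c : F, (ρ γ : Matrix n n F)ᵀ * E.map (algebraMap ℚ F) * (ρ γ : Matrix n n F) =
      c • E.map (algebraMap ℚ F) := fun γ => (h.simil γ).2
  obtain ⟨γ₀, hγ₀⟩ := h.trans
  obtain ⟨c₀, hc₀⟩ := hsim γ₀
  obtain ⟨v, t, hv, ht, hN⟩ := rank_one hEFu hEFs hn hc₀ hγ₀
  obtain ⟨hspan, hconn⟩ := orbit_conn hEFu hEFs hne hsim h.irred hΓ₁ hv
  obtain ⟨γ₂, c₂, hc₂, hcm⟩ := h.mult
  clear hskew hE hn
  revert hEE hEFu hEKu hEFs hEKs hsim hc₀ hN hspan hconn hc₂ hYc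
  generalize E.map (algebraMap ℚ F) = EF
  generalize E.map (algebraMap ℚ K) = EK
  intro hYc hEE hEFu hEKu hEFs hEKs hsim hc₀ hN hspan hconn hc₂
  have hsub : imK ρ K Γ₁ ⊆ monodromy ρ K := by
    rw [hG]; exact subset_zcl (imK_unit ρ Γ₁)
  have hone : (1 : Matrix n n K) ∈ monodromy ρ K := hsub (imK_one ρ Γ₁)
  have hmul : ∀ a ∈ monodromy ρ K, ∀ b ∈ monodromy ρ K, a * b ∈ monodromy ρ K := by
    intro a ha b hb
    rw [hG] at ha hb ⊢
    exact zcl_mul (imK_mul ρ Γ₁) ha hb
  have hcl : ∀ M : Matrix n n K, IsUnit M.det → (∀ p : MvPolynomial (n × n) K,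
      (∀ g ∈ monodromy ρ K, pev g p = 0) → pev M p = 0) → M ∈ monodromy ρ K := by
    intro M hM hMp
    rw [hG]
    refine ⟨hM, ?_⟩
    intro p hp
    apply hMp
    intro g hg
    rw [hG] at hg
    exact hg.2 p hp
  -- unipotents
  obtain ⟨v', hv'⟩ : ∃ v', v' = (algebraMap F K) ∘ v := ⟨_, rfl⟩
  obtain ⟨T, hT⟩ : ∃ T, T = s2 EK v' v' := ⟨_, rfl⟩
  obtain ⟨t', ht'⟩ : ∃ t', t' = algebraMap F K t := ⟨_, rfl⟩
  have ht0 : t' ≠ 0 := by rw [ht', Ne, map_eq_zero]; exact ht
  have hTT : T * T = 0 := by rw [hT]; exact tr_sq hEKs v'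
  have e1 : (ρ γ₀ : Matrix n n F).map (algebraMap F K) = 1 + t' • T := by
    have h1 : (ρ γ₀ : Matrix n n F) = 1 + t • s2 EF v v := by rw [← hN]; abel
    rw [h1, Matrix.map_add _ (map_add _), Matrix.map_one _ (map_zero _) (map_one _), hT, hv', ht',
      ← hEE, ← s2_map]
    congr 1
    ext i j
    simp
  have hpow : ∀ k : ℕ, ((ρ (γ₀ ^ k) : GL n F) : Matrix n n F).map (algebraMap F K) =
      1 + ((k : K) * t') • T := by
    intro k
    induction k with
    | zero =>
      rw [pow_zero, map_one, Units.val_one, Matrix.map_one _ (map_zero _) (map_one _)]; simp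
    | succ k ih =>
      rw [pow_succ, map_mul, Units.val_mul, Matrix.map_mul, ih, e1, mul_add, mul_one, add_mul, one_mul,
        smul_mul_smul_comm, hTT]
      push_cast
      module
  have hunip : ∀ s : K, 1 + s • T ∈ monodromy ρ K := by
    intro s
    apply hcl
    · have h1 : (1 + s • T) * (1 - s • T) = 1 := by
        rw [mul_sub, mul_one, add_mul, one_mul, smul_mul_smul_comm, hTT, smul_zero, add_zero,
          add_sub_cancel_right]
      have h2 := congrArg det h1
      rw [det_mul, det_one] at h2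
      exact IsUnit.of_mul_eq_one _ h2
    · intro p hp
      obtain ⟨m, hm, -, hmΓ⟩ := Subgroup.exists_pow_mem_of_index_ne_zero hΓ₁.index_ne_zero γ₀
      have h4 : cev (lin 1 T) p = 0 := by
        apply Polynomial.eq_zero_of_infinite_isRoot
        apply Set.infinite_of_injective_forall_mem (f := fun k : ℕ => ((m * k : ℕ) : K) * t')
        · intro a b hab
          have h5 := Nat.cast_injective (mul_right_cancel₀ ht0 hab)
          exact Nat.eq_of_mul_eq_mul_left hm h5
        · intro k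
          change Polynomial.eval _ _ = 0
          rw [cev_eval, lin_eval, ← hpow]
          apply hp
          apply hsub
          refine ⟨γ₀ ^ (m * k), ?_, rfl⟩
          rw [pow_mul]
          exact Γ₁.pow_mem hmΓ k
      rw [← lin_eval, ← cev_eval, h4, Polynomial.eval_zero]
  -- the orbit
  have horb : ∀ x ∈ orb ρ Γ₁ v, s2 EK ((algebraMap F K) ∘ x) ((algebraMap F K) ∘ x) ∈
      lieOf (monodromy ρ K) := by
    rintro _ ⟨γ, hγ, rfl⟩
    rw [vec_map, ← hv']
    obtain ⟨μ, hμ⟩ := hsim γ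
    have h1 := sim_map hEE hμ
    have h2 := inv_map (K := K) ρ γ
    apply lieOf_unip hmul (tr_sq hEKs _)
    intro s
    rw [← conj_tr h1 h2 v' s, ← hT]
    exact hmul _ (hmul _ (hsub ⟨γ, hγ, rfl⟩) _ (hunip _)) _ (hsub ⟨γ⁻¹, Γ₁.inv_mem hγ, rfl⟩)
  have hL : ∀ x, s2 EK x x ∈ lieOf (monodromy ρ K) := by
    intro x
    apply conn (S := {y | ∃ x ∈ orb ρ Γ₁ v, y = (algebraMap F K) ∘ x}) hEKs
      (fun A hA B hB => lieOf_br hA hB)
    · rintro _ ⟨x, hx, rfl⟩
      exact horb x hx
    · rintro _ ⟨x, hx, rfl⟩ _ ⟨y, hy, rfl⟩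
      refine Relation.ReflTransGen.lift (fun z : n → F => (algebraMap F K) ∘ z) ?_ _ _ (hconn x hx y hy)
      rintro a b ⟨hb, hab⟩
      refine ⟨⟨b, hb, rfl⟩, ?_⟩
      rw [← hEE, bil_map, Ne, map_eq_zero]
      exact hab
    · have h1 : ∀ x : n → F, (algebraMap F K) ∘ x ∈
          Submodule.span K {y | ∃ x ∈ orb ρ Γ₁ v, y = (algebraMap F K) ∘ x} := by
        intro x
        have hx : x ∈ Submodule.span F (orb ρ Γ₁ v) := by rw [hspan]; trivial
        induction hx using Submodule.span_induction with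
        | mem x hx => exact Submodule.subset_span ⟨x, hx, rfl⟩
        | zero =>
          have : (algebraMap F K) ∘ (0 : n → F) = 0 := by ext i; simp
          rw [this]; exact Submodule.zero_mem _
        | add a b _ _ ha hb =>
          have : (algebraMap F K) ∘ (a + b) = (algebraMap F K) ∘ a + (algebraMap F K) ∘ b := by
            ext i; simp
          rw [this]; exact Submodule.add_mem _ ha hb
        | smul e a _ ha =>
          have : (algebraMap F K) ∘ (e • a) = (algebraMap F K e) • ((algebraMap F K) ∘ a) := by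
            ext i; simp
          rw [this]; exact Submodule.smul_mem _ _ ha
      rw [eq_top_iff]
      intro y _
      have h2 : y = ∑ i, y i • ((algebraMap F K) ∘ (Pi.single i (1 : F) : n → F)) := by
        ext k
        simp [Finset.sum_apply, Pi.single_apply]
      rw [h2]
      exact Submodule.sum_mem _ (fun i _ => Submodule.smul_mem _ _ (h1 _))
  have hSp := sp_le hEKu hEKs hone hmul hcl hL
  -- scalars
  have hsc : ∀ s : K, s ≠ 0 → s • (1 : Matrix n n K) ∈ monodromy ρ K := by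
    obtain ⟨m, hm, -, hmΓ⟩ := Subgroup.exists_pow_mem_of_index_ne_zero hΓ₁.index_ne_zero γ₂
    have hj : ∀ j : ℕ, (ρ (γ₂ ^ j) : Matrix n n F)ᵀ * EF * (ρ (γ₂ ^ j) : Matrix n n F) =
        (c₂ ^ j) • EF := by
      intro j
      induction j with
      | zero => rw [pow_zero, map_one, Units.val_one, pow_zero]; simp
      | succ j ih =>
        rw [pow_succ, map_mul, Units.val_mul, transpose_mul]
        calc (ρ γ₂ : Matrix n n F)ᵀ * (ρ (γ₂ ^ j) : Matrix n n F)ᵀ * EF *
              ((ρ (γ₂ ^ j) : Matrix n n F) * (ρ γ₂ : Matrix n n F))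
            = (ρ γ₂ : Matrix n n F)ᵀ * ((ρ (γ₂ ^ j) : Matrix n n F)ᵀ * EF *
              (ρ (γ₂ ^ j) : Matrix n n F)) * (ρ γ₂ : Matrix n n F) := by simp only [mul_assoc]
          _ = (c₂ ^ (j + 1)) • EF := by
            rw [ih, mul_smul_comm, smul_mul_assoc, hc₂, smul_smul, pow_succ]
    obtain ⟨d, hd⟩ : ∃ d, d = algebraMap F K (c₂ ^ m) := ⟨_, rfl⟩
    have hc20 : c₂ ≠ 0 := sim_ne hEFu hne hc₂
    have hd0 : d ≠ 0 := by rw [hd, Ne, map_eq_zero]; exact pow_ne_zero _ hc20
    obtain ⟨B, hB⟩ : ∃ B, B = (ρ (γ₂ ^ m) : Matrix n n F).map (algebraMap F K) := ⟨_, rfl⟩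
    obtain ⟨B', hB'⟩ : ∃ B', B' = (ρ (γ₂ ^ m)⁻¹ : Matrix n n F).map (algebraMap F K) := ⟨_, rfl⟩
    have hBB : B * B' = 1 := by rw [hB, hB']; exact inv_map ρ _
    have hBs : Bᵀ * EK * B = d • EK := by rw [hB, hd]; exact sim_map hEE (hj m)
    have hBs' : B'ᵀ * EK * B' = d⁻¹ • EK := by
      have h1 : EK = d • (B'ᵀ * EK * B') := by
        calc EK = (B * B')ᵀ * EK * (B * B') := by rw [hBB]; simp
          _ = B'ᵀ * (Bᵀ * EK * B) * B' := by rw [transpose_mul]; simp only [mul_assoc]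
          _ = d • (B'ᵀ * EK * B') := by rw [hBs, mul_smul_comm, smul_mul_assoc]
      nth_rewrite 2 [h1]
      rw [smul_smul, inv_mul_cancel₀ hd0, one_smul]
    have hW : d • (B' * B') ∈ monodromy ρ K := by
      apply hSp
      calc (d • (B' * B'))ᵀ * EK * (d • (B' * B'))
          = (d * d) • (B'ᵀ * (B'ᵀ * EK * B') * B') := by
            rw [transpose_smul, transpose_mul, smul_mul_assoc, smul_mul_assoc, mul_smul_comm, smul_smul]
            simp only [mul_assoc]
        _ = EK := by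
          rw [hBs', mul_smul_comm, smul_mul_assoc, hBs', smul_smul, smul_smul]
          have : d * d * d⁻¹ * d⁻¹ = 1 := by field_simp
          rw [this, one_smul]
    have hdG : d • (1 : Matrix n n K) ∈ monodromy ρ K := by
      have h1 : d • (1 : Matrix n n K) = (B * B) * (d • (B' * B')) := by
        rw [mul_smul_comm]
        congr 1
        rw [mul_assoc, ← mul_assoc B B' B', hBB, one_mul, hBB]
      rw [h1]
      have h2 : B ∈ monodromy ρ K := by rw [hB]; exact hsub ⟨_, hmΓ, rfl⟩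
      exact hmul _ (hmul _ h2 _ h2) _ hW
    intro s hs
    apply scal hone hmul hcl hd0 ?_ hdG s hs
    intro j hj0 h1
    rw [hd, ← map_pow, ← pow_mul] at h1
    apply hcm (m * j) (Nat.mul_pos hm hj0)
    exact (algebraMap F K).injective (by rw [h1, map_one])
  have hc0 : c ≠ 0 := by
    rintro rfl
    rw [zero_smul] at hYc
    have h1 : IsUnit (Yᵀ * EK * Y).det := by
      rw [det_mul, det_mul, det_transpose]
      exact (hY.mul hEKu).mul hY
    rw [hYc, det_zero] at h1
    exact not_isUnit_zero h1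
  obtain ⟨l, hl⟩ := IsAlgClosed.exists_eq_mul_self c
  have hl0 : l ≠ 0 := by rintro rfl; apply hc0; rw [hl, mul_zero]
  have h1 : l⁻¹ • Y ∈ monodromy ρ K := by
    apply hSp
    rw [transpose_smul, smul_mul_assoc, smul_mul_assoc, mul_smul_comm, hYc, smul_smul, smul_smul, hl]
    have : l⁻¹ * l⁻¹ * (l * l) = 1 := by field_simp
    rw [this, one_smul]
  have h2 : Y = (l • (1 : Matrix n n K)) * (l⁻¹ • Y) := by
    rw [smul_mul_smul_comm, mul_inv_cancel₀ hl0, one_mul, one_smul]
  rw [h2]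
  exact hmul _ (hsc l hl0) _ h1

end

theorem pev_up {F K L : Type*} [Field F] [Field K] [Field L] [Algebra F K] [Algebra F L] [Algebra K L]
    [IsScalarTower F K L] (X : Matrix n n K) (p : MvPolynomial (n × n) F) :
    pev (X.map (algebraMap K L)) p = algebraMap K L (pev X p) := by
  have h : pev (F := F) (X.map (algebraMap K L)) = (IsScalarTower.toAlgHom F K L).comp (pev (F := F) X) := by
    apply MvPolynomial.algHom_ext
    intro ij
    simp [pev]
  rw [h]
  rfl

/-- LAD -/
theorem lad : LadStmt := by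
  intro n _ _ E F Γ _ _ _ ρ hskew hE hn h K _ _ _
  apply Set.Subset.antisymm (sub_sim (ne_zero_of hE hn) h.simil)
  intro X hX Γ' hΓ'
  refine ⟨hX.1, ?_⟩
  intro p hp
  have h1 : X.map (algebraMap K (AlgebraicClosure K)) ∈ similitudes E (AlgebraicClosure K) := by
    obtain ⟨hXu, c, hc⟩ := hX
    refine ⟨?_, algebraMap K (AlgebraicClosure K) c, ?_⟩
    · have h2 := hXu.map (algebraMap K (AlgebraicClosure K))
      rwa [RingHom.map_det, RingHom.mapMatrix_apply] at h2
    · exact sim_map (map_E E) hc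
  have h2 := core hskew hE hn h h1 Γ' hΓ'
  have h3 := h2.2 p hp
  rw [pev_up, map_eq_zero] at h3
  exact h3

end Pool.Agent.MT100.H78
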