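import Pool.Agent.Helper78_MT.Assembly

/-!
# MT100, module LAD (helper78)

The identity component of the Zariski closure of the image of a representation in the symplectic
similitudes which is irreducible on every subgroup of finite index, contains an element `1 + N` with
`N` of rank one, and has a multiplier which is not a root of unity, consists of all symplectic
similitudes.
-/

set_option autoImplicit false
set_option linter.unusedSectionVars false

namespace Pool.Agent.MT100.H78

open Matrix Module Pool.Agent.Helper78_MT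

section basics

variable {n : Type*} [Fintype n] [DecidableEq n] {K : Type*} [Field K]

/-- the form is nondegenerate -/
theorem nondeg {E : Matrix n n K} (hE : IsUnit E.det) : ∀ u, (∀ v, bil E u v = 0) → u = 0 := by
  intro u hu
  have h1 : u ᵥ* E = 0 := by
    ext j
    have := hu (Pi.single j 1)
    rw [bil_apply, dotProduct_mulVec] at this
    simpa using this
  have h2 : u ᵥ* (E * E⁻¹) = 0 := by rw [← vecMul_vecMul, h1, zero_vecMul]
  rwa [mul_nonsing_inv E hE, vecMul_one] at h2

theorem skewm {E : Matrix n n K} (hskew : Eᵀ = -E) : ∀ u v, bil E u v = -bil E v u := by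
  intro u v
  rw [bil_apply, bil_apply]
  have h1 : v ⬝ᵥ (E *ᵥ u) = u ⬝ᵥ (Eᵀ *ᵥ v) := by
    rw [dotProduct_mulVec u Eᵀ, vecMul_transpose, dotProduct_comm]
  rw [h1, hskew, neg_mulVec, dotProduct_neg, neg_neg]

/-- the symmetric rank two element `u ↦ E(x,u) y + E(y,u) x` as a matrix -/
noncomputable def s2 (E : Matrix n n K) (x y : n → K) : Matrix n n K :=
  φm.symm (r1 (bil E) x y + r1 (bil E) y x)

theorem s2_mulVec (E : Matrix n n K) (x y u : n → K) :
    s2 E x y *ᵥ u = bil E x u • y + bil E y u • x := by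
  rw [← φm_apply, s2, AlgEquiv.apply_symm_apply]
  rfl

theorem ext_mulVec {A B : Matrix n n K} (h : ∀ u, A *ᵥ u = B *ᵥ u) : A = B := by
  apply φm.injective
  apply LinearMap.ext
  intro u
  rw [φm_apply, φm_apply, h]

theorem s2_comm (E : Matrix n n K) (x y : n → K) : s2 E x y = s2 E y x := by
  apply ext_mulVec
  intro u
  rw [s2_mulVec, s2_mulVec, add_comm]

theorem s2_add (E : Matrix n n K) (x y z : n → K) : s2 E x (y + z) = s2 E x y + s2 E x z := by
  apply ext_mulVec
  intro u
  rw [s2_mulVec, add_mulVec, s2_mulVec, s2_mulVec, map_add, LinearMap.add_apply]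
  module

theorem s2_smul (E : Matrix n n K) (c : K) (x y : n → K) : s2 E x (c • y) = c • s2 E x y := by
  apply ext_mulVec
  intro u
  rw [s2_mulVec, smul_mulVec, s2_mulVec, map_smul, LinearMap.smul_apply, smul_eq_mul]
  module

theorem s2_br {E : Matrix n n K} (hskew : Eᵀ = -E) (x y z w : n → K) :
    s2 E x y * s2 E z w - s2 E z w * s2 E x y =
      bil E x z • s2 E y w + bil E x w • s2 E y z + bil E y z • s2 E x w + bil E y w • s2 E x z := by
  apply ext_mulVec
  intro u
  have sk := skewm hskew
  simp only [sub_mulVec, add_mulVec, ← mulVec_mulVec, smul_mulVec, s2_mulVec, map_add, map_smul,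
    smul_eq_mul]
  rw [sk z x, sk w x, sk z y, sk w y]
  module

theorem path [CharZero K] {E : Matrix n n K} (hskew : Eᵀ = -E) {L : Submodule K (Matrix n n K)}
    (hbr : ∀ A ∈ L, ∀ B ∈ L, A * B - B * A ∈ L) {S : Set (n → K)}
    (hS : ∀ x ∈ S, s2 E x x ∈ L) {x y : n → K} (hx : x ∈ S)
    (h : Relation.ReflTransGen (fun a b => b ∈ S ∧ bil E a b ≠ 0) x y) : y ∈ S ∧ s2 E x y ∈ L := by
  induction h with
  | refl => exact ⟨hx, hS x hx⟩
  | @tail b c hxb hbc ih =>
    obtain ⟨hcS, hne⟩ := hbc
    obtain ⟨hbS, ihb⟩ := ih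
    refine ⟨hcS, ?_⟩
    have hcc := hS c hcS
    by_cases h0 : bil E x c = 0
    · have h3 := hbr _ ihb _ hcc
      rw [s2_br hskew, h0, zero_smul, zero_add, zero_add, ← two_smul K,
        smul_smul] at h3
      have h4 := L.smul_mem (2 * bil E b c)⁻¹ h3
      rwa [smul_smul, inv_mul_cancel₀ (mul_ne_zero two_ne_zero hne), one_smul] at h4
    · have h3 := hbr _ (hS x hx) _ hcc
      rw [s2_br hskew] at h3
      have h5 : bil E x c • s2 E x c + bil E x c • s2 E x c + bil E x c • s2 E x c +
          bil E x c • s2 E x c = (4 * bil E x c) • s2 E x c := by module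
      rw [h5] at h3
      have h4 := L.smul_mem (4 * bil E x c)⁻¹ h3
      rwa [smul_smul, inv_mul_cancel₀ (mul_ne_zero (by norm_num) h0), one_smul] at h4

/-- Products of vectors in a connected spanning set. -/
theorem conn [CharZero K] {E : Matrix n n K} (hskew : Eᵀ = -E) {L : Submodule K (Matrix n n K)}
    (hbr : ∀ A ∈ L, ∀ B ∈ L, A * B - B * A ∈ L) {S : Set (n → K)}
    (hS : ∀ x ∈ S, s2 E x x ∈ L)
    (hc : ∀ x ∈ S, ∀ y ∈ S, Relation.ReflTransGen (fun a b => b ∈ S ∧ bil E a b ≠ 0) x y)
    (hspan : Submodule.span K S = ⊤) (x y : n → K) : s2 E x y ∈ L := by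
  have h1 : ∀ x ∈ S, ∀ y ∈ S, s2 E x y ∈ L := fun x hx y hy =>
    (path hskew hbr hS hx (hc x hx y hy)).2
  have h2 : ∀ x ∈ S, ∀ y, s2 E x y ∈ L := by
    intro x hx y
    have hy : y ∈ Submodule.span K S := by rw [hspan]; trivial
    induction hy using Submodule.span_induction with
    | mem y hy => exact h1 x hx y hy
    | zero =>
      have : s2 E x 0 = (0 : K) • s2 E x 0 := by rw [← s2_smul, zero_smul]
      rw [this, zero_smul]; exact L.zero_mem
    | add a b _ _ ha hb => rw [s2_add]; exact L.add_mem ha hb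
    | smul c a _ ha => rw [s2_smul]; exact L.smul_mem _ ha
  have hx : x ∈ Submodule.span K S := by rw [hspan]; trivial
  rw [s2_comm]
  induction hx using Submodule.span_induction with
  | mem x hx => rw [s2_comm]; exact h2 x hx y
  | zero =>
    have : s2 E y 0 = (0 : K) • s2 E y 0 := by rw [← s2_smul, zero_smul]
    rw [this, zero_smul]; exact L.zero_mem
  | add a b _ _ ha hb => rw [s2_add]; exact L.add_mem ha hb
  | smul c a _ ha => rw [s2_smul]; exact L.smul_mem _ ha

end basics

end Pool.Agent.MT100.H78
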