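import Pool.Agent.Helper78_M100.Lad

/-! MT100, module LAD, second part: connectedness of the orbit of a vector. -/

set_option autoImplicit false
set_option linter.unusedSectionVars false

namespace Pool.Agent.MT100.H78

open Matrix Module Pool.Agent.Helper78_MT

variable {n : Type*} [Fintype n] [DecidableEq n] {F : Type*} [Field F]

/-- the relation of non orthogonality in `S` -/
def NO (E : Matrix n n F) (S : Set (n → F)) (a b : n → F) : Prop := b ∈ S ∧ bil E a b ≠ 0

/-- the vectors of `S` which can be reached from `x` -/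
def comp (E : Matrix n n F) (S : Set (n → F)) (x : n → F) : Set (n → F) :=
  {y | y ∈ S ∧ Relation.ReflTransGen (NO E S) x y}

theorem no_symm {E : Matrix n n F} (hskew : Eᵀ = -E) {S : Set (n → F)} {x y : n → F} (hx : x ∈ S)
    (h : Relation.ReflTransGen (NO E S) x y) : y ∈ S ∧ Relation.ReflTransGen (NO E S) y x := by
  induction h with
  | refl => exact ⟨hx, Relation.ReflTransGen.refl⟩
  | @tail b c hxb hbc ih =>
    refine ⟨hbc.1, ?_⟩
    apply Relation.ReflTransGen.head (b := b)
    · refine ⟨ih.1, ?_⟩
      rw [skewm hskew]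
      exact neg_ne_zero.mpr hbc.2
    · exact ih.2

theorem comp_eq {E : Matrix n n F} (hskew : Eᵀ = -E) {S : Set (n → F)} {x y : n → F} (hx : x ∈ S)
    (hy : y ∈ comp E S x) : comp E S y = comp E S x := by
  ext z
  constructor
  · rintro ⟨hz, h⟩
    exact ⟨hz, hy.2.trans h⟩
  · rintro ⟨hz, h⟩
    exact ⟨hz, (no_symm hskew hx hy.2).2.trans h⟩

theorem comp_orth {E : Matrix n n F} {S : Set (n → F)} {x z y : n → F}
    (hz : z ∈ S) (hzx : z ∉ comp E S x) (hy : y ∈ comp E S x) : bil E y z = 0 := by
  by_contra hne
  apply hzx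
  exact ⟨hz, hy.2.tail ⟨hz, hne⟩⟩

theorem orth_span {E : Matrix n n F} {A B : Set (n → F)} (h : ∀ a ∈ A, ∀ b ∈ B, bil E a b = 0) :
    ∀ a ∈ Submodule.span F A, ∀ b ∈ Submodule.span F B, bil E a b = 0 := by
  have h1 : ∀ a ∈ A, ∀ b ∈ Submodule.span F B, bil E a b = 0 := by
    intro a ha b hb
    have : Submodule.span F B ≤ LinearMap.ker (bil E a) := by
      rw [Submodule.span_le]
      intro b hb
      exact h a ha b hb
    exact this hb
  intro a ha b hb
  have : Submodule.span F A ≤ LinearMap.ker ((bil E).flip b) := by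
    rw [Submodule.span_le]
    intro a ha
    exact h1 a ha b hb
  exact this ha

/-- the spans of the components -/
def spans (E : Matrix n n F) (S : Set (n → F)) : Set (Submodule F (n → F)) :=
  {U | ∃ x ∈ S, U = Submodule.span F (comp E S x)}

theorem spans_indep {E : Matrix n n F} (hE : IsUnit E.det) (hskew : Eᵀ = -E) {S : Set (n → F)}
    (hspan : Submodule.span F S = ⊤) : sSupIndep (spans E S) := by
  rintro U ⟨x, hx, rfl⟩
  rw [Submodule.disjoint_def]
  intro a ha1 ha2
  have h1 : sSup (spans E S \ {Submodule.span F (comp E S x)}) ≤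
      Submodule.span F (S \ comp E S x) := by
    apply sSup_le
    rintro _ ⟨⟨y, hy, rfl⟩, hne⟩
    apply Submodule.span_mono
    rintro z hz
    refine ⟨hz.1, ?_⟩
    intro hzx
    apply hne
    rw [Set.mem_singleton_iff, ← comp_eq hskew hx hzx, comp_eq hskew hy hz]
  have h2 := h1 ha2
  apply nondeg hE
  intro v
  have hv : v ∈ Submodule.span F S := by rw [hspan]; trivial
  have h3 : ∀ w ∈ S, bil E a w = 0 := by
    intro w hw
    by_cases hwx : w ∈ comp E S x
    · rw [skewm hskew, neg_eq_zero]
      apply orth_span (A := comp E S x) (B := S \ comp E S x)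
      · intro b hb c hc
        exact comp_orth hc.1 hc.2 hb
      · exact Submodule.subset_span hwx
      · exact h2
    · apply orth_span (A := comp E S x) (B := S \ comp E S x)
      · intro b hb c hc
        exact comp_orth hc.1 hc.2 hb
      · exact ha1
      · exact Submodule.subset_span ⟨hw, hwx⟩
  have : Submodule.span F S ≤ LinearMap.ker (bil E a) := by
    rw [Submodule.span_le]
    exact h3
  exact this hv

end Pool.Agent.MT100.H78
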