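import Pool.Agent.Helper78_M100.Lad2

/-! MT100, module LAD, third part: the orbit of a vector under a subgroup of finite index is connected. -/

set_option autoImplicit false
set_option linter.unusedSectionVars false

namespace Pool.Agent.MT100.H78

open Matrix Module Pool.Agent.Helper78_MT

variable {n : Type*} [Fintype n] [DecidableEq n] {F : Type*} [Field F] {Γ : Type*} [Group Γ]

/-- the action on subspaces -/
@[reducible] def actSub (ρ : Γ →* GL n F) : MulAction Γ (Submodule F (n → F)) where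
  smul γ U := U.map (φm (ρ γ : Matrix n n F))
  one_smul U := by
    change U.map (φm (ρ 1 : Matrix n n F)) = U
    rw [map_one, Units.val_one, map_one]
    exact Submodule.map_id U
  mul_smul γ δ U := by
    change U.map (φm (ρ (γ * δ) : Matrix n n F)) = (U.map (φm (ρ δ : Matrix n n F))).map
      (φm (ρ γ : Matrix n n F))
    rw [map_mul, Units.val_mul, map_mul]
    exact Submodule.map_comp _ _ _

/-- the orbit -/
def orb (ρ : Γ →* GL n F) (Γ₁ : Subgroup Γ) (v : n → F) : Set (n → F) :=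
  {x | ∃ γ ∈ Γ₁, x = (ρ γ : Matrix n n F) *ᵥ v}

theorem orb_act {ρ : Γ →* GL n F} {Γ₁ : Subgroup Γ} {v x : n → F} {γ : Γ} (hγ : γ ∈ Γ₁)
    (hx : x ∈ orb ρ Γ₁ v) : (ρ γ : Matrix n n F) *ᵥ x ∈ orb ρ Γ₁ v := by
  obtain ⟨δ, hδ, rfl⟩ := hx
  refine ⟨γ * δ, Γ₁.mul_mem hγ hδ, ?_⟩
  rw [map_mul, Units.val_mul, ← mulVec_mulVec]

theorem bil_sim {E : Matrix n n F} {ρ : Γ →* GL n F} {γ : Γ} {c : F}
    (h : (ρ γ : Matrix n n F)ᵀ * E * (ρ γ : Matrix n n F) = c • E) (x y : n → F) :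
    bil E ((ρ γ : Matrix n n F) *ᵥ x) ((ρ γ : Matrix n n F) *ᵥ y) = c * bil E x y := by
  rw [bil_mul, h, bil_apply, bil_apply, smul_mulVec, dotProduct_smul, smul_eq_mul]

theorem sim_ne {E : Matrix n n F} (hE : IsUnit E.det) (hn : Nonempty n) {ρ : Γ →* GL n F} {γ : Γ} {c : F}
    (h : (ρ γ : Matrix n n F)ᵀ * E * (ρ γ : Matrix n n F) = c • E) : c ≠ 0 := by
  rintro rfl
  have := hn
  rw [zero_smul] at h
  have h1 : IsUnit ((ρ γ : Matrix n n F)ᵀ * E * (ρ γ : Matrix n n F)).det := by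
    have h2 : IsUnit (ρ γ : Matrix n n F).det := (isUnit_iff_isUnit_det _).mp (ρ γ).isUnit
    rw [det_mul, det_mul, det_transpose]
    exact (h2.mul hE).mul h2
  rw [h, det_zero] at h1
  exact not_isUnit_zero h1

theorem comp_act {E : Matrix n n F} (hE : IsUnit E.det) (hn : Nonempty n) {ρ : Γ →* GL n F}
    (hsim : ∀ γ, ∃ c : F, (ρ γ : Matrix n n F)ᵀ * E * (ρ γ : Matrix n n F) = c • E)
    {Γ₁ : Subgroup Γ} {v x y : n → F} {γ : Γ} (hγ : γ ∈ Γ₁)
    (h : Relation.ReflTransGen (NO E (orb ρ Γ₁ v)) x y) :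
    Relation.ReflTransGen (NO E (orb ρ Γ₁ v)) ((ρ γ : Matrix n n F) *ᵥ x) ((ρ γ : Matrix n n F) *ᵥ y) := by
  induction h with
  | refl => exact Relation.ReflTransGen.refl
  | @tail b c _ hbc ih =>
    refine ih.tail ⟨orb_act hγ hbc.1, ?_⟩
    obtain ⟨e, he⟩ := hsim γ
    rw [bil_sim he]
    exact mul_ne_zero (sim_ne hE hn he) hbc.2

theorem comp_map {E : Matrix n n F} (hE : IsUnit E.det) (hn : Nonempty n) {ρ : Γ →* GL n F}
    (hsim : ∀ γ, ∃ c : F, (ρ γ : Matrix n n F)ᵀ * E * (ρ γ : Matrix n n F) = c • E)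
    {Γ₁ : Subgroup Γ} {v x : n → F} {γ : Γ} (hγ : γ ∈ Γ₁) :
    (Submodule.span F (comp E (orb ρ Γ₁ v) x)).map (φm (ρ γ : Matrix n n F)) =
      Submodule.span F (comp E (orb ρ Γ₁ v) ((ρ γ : Matrix n n F) *ᵥ x)) := by
  rw [Submodule.map_span]
  congr 1
  ext z
  constructor
  · rintro ⟨y, ⟨hy, hr⟩, rfl⟩
    exact ⟨orb_act hγ hy, comp_act hE hn hsim hγ hr⟩
  · rintro ⟨hz, hr⟩
    refine ⟨(ρ γ⁻¹ : Matrix n n F) *ᵥ z, ⟨orb_act (Γ₁.inv_mem hγ) hz, ?_⟩, ?_⟩
    · have h1 := comp_act hE hn hsim (Γ₁.inv_mem hγ) hr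
      rw [mulVec_mulVec, ← Units.val_mul, ← map_mul, inv_mul_cancel, map_one, Units.val_one,
        one_mulVec] at h1
      exact h1
    · rw [φm_apply, mulVec_mulVec, ← Units.val_mul, ← map_mul, mul_inv_cancel, map_one,
        Units.val_one, one_mulVec]

/-- The orbit spans, and any two of its elements are connected. -/
theorem orbit_conn {E : Matrix n n F} (hE : IsUnit E.det) (hskew : Eᵀ = -E) (hn : Nonempty n)
    {ρ : Γ →* GL n F}
    (hsim : ∀ γ, ∃ c : F, (ρ γ : Matrix n n F)ᵀ * E * (ρ γ : Matrix n n F) = c • E)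
    (hirr : ∀ Γ' : Subgroup Γ, Γ'.FiniteIndex → ∀ U : Submodule F (n → F),
      (∀ γ ∈ Γ', ∀ x ∈ U, (ρ γ : Matrix n n F) *ᵥ x ∈ U) → U = ⊥ ∨ U = ⊤)
    {Γ₁ : Subgroup Γ} (hΓ₁ : Γ₁.FiniteIndex) {v : n → F} (hv : v ≠ 0) :
    Submodule.span F (orb ρ Γ₁ v) = ⊤ ∧ ∀ x ∈ orb ρ Γ₁ v, ∀ y ∈ orb ρ Γ₁ v,
      Relation.ReflTransGen (NO E (orb ρ Γ₁ v)) x y := by
  have hne : ∀ x ∈ orb ρ Γ₁ v, x ≠ 0 := by
    rintro _ ⟨γ, hγ, rfl⟩ h0
    apply hv
    have h1 : (ρ γ⁻¹ : Matrix n n F) *ᵥ ((ρ γ : Matrix n n F) *ᵥ v) = v := by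
      rw [mulVec_mulVec, ← Units.val_mul, ← map_mul, inv_mul_cancel, map_one, Units.val_one,
        one_mulVec]
    rw [← h1, h0, mulVec_zero]
  have hspan : Submodule.span F (orb ρ Γ₁ v) = ⊤ := by
    rcases hirr Γ₁ hΓ₁ (Submodule.span F (orb ρ Γ₁ v)) (by
      intro γ hγ x hx
      have h1 : (Submodule.span F (orb ρ Γ₁ v)).map (φm (ρ γ : Matrix n n F)) ≤
          Submodule.span F (orb ρ Γ₁ v) := by
        rw [Submodule.map_span, Submodule.span_le]
        rintro _ ⟨y, hy, rfl⟩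
        exact Submodule.subset_span (orb_act hγ hy)
      exact h1 ⟨x, hx, rfl⟩) with h | h
    · exfalso
      apply hv
      have h1 : v ∈ Submodule.span F (orb ρ Γ₁ v) :=
        Submodule.subset_span ⟨1, Γ₁.one_mem, by rw [map_one, Units.val_one, one_mulVec]⟩
      rw [h, Submodule.mem_bot] at h1
      exact h1
    · exact h
  refine ⟨hspan, ?_⟩
  have hfin : (spans E (orb ρ Γ₁ v)).Finite :=
    WellFoundedGT.finite_of_sSupIndep (spans_indep hE hskew hspan)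
  have key : ∀ x ∈ orb ρ Γ₁ v, Submodule.span F (comp E (orb ρ Γ₁ v) x) = ⊤ := by
    intro x hx
    letI : MulAction Γ (Submodule F (n → F)) := actSub ρ
    let W := Submodule.span F (comp E (orb ρ Γ₁ v) x)
    have horb : MulAction.orbit Γ₁ W ⊆ spans E (orb ρ Γ₁ v) := by
      rintro _ ⟨γ, rfl⟩
      refine ⟨(ρ γ : Matrix n n F) *ᵥ x, orb_act γ.2 hx, ?_⟩
      exact comp_map hE hn hsim γ.2
    have hof : (MulAction.orbit Γ₁ W).Finite := hfin.subset horb
    have hidx : (MulAction.stabilizer Γ₁ W).FiniteIndex := by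
      constructor
      rw [MulAction.index_stabilizer]
      have hne2 : (MulAction.orbit Γ₁ W).Nonempty := MulAction.nonempty_orbit W
      exact (Set.ncard_pos hof).mpr hne2 |>.ne'
    have hidx2 : ((MulAction.stabilizer Γ₁ W).map Γ₁.subtype).FiniteIndex := by
      constructor
      rw [Subgroup.index_map_subtype]
      exact mul_ne_zero hidx.index_ne_zero hΓ₁.index_ne_zero
    rcases hirr _ hidx2 W (by
      rintro _ ⟨γ, hγ, rfl⟩ y hy
      have h1 : W.map (φm (ρ (γ : Γ) : Matrix n n F)) = W := hγ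
      rw [← h1]
      exact ⟨y, hy, rfl⟩) with h | h
    · exfalso
      apply hne x hx
      have h1 : x ∈ W := Submodule.subset_span ⟨hx, Relation.ReflTransGen.refl⟩
      rw [h, Submodule.mem_bot] at h1
      exact h1
    · exact h
  intro x hx y hy
  by_contra hr
  apply hne y hy
  have hyx : y ∉ comp E (orb ρ Γ₁ v) x := fun h => hr h.2
  apply nondeg hE
  intro w
  have hw : w ∈ Submodule.span F (comp E (orb ρ Γ₁ v) x) := by rw [key x hx]; trivial
  rw [skewm hskew, neg_eq_zero]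
  have : Submodule.span F (comp E (orb ρ Γ₁ v) x) ≤ LinearMap.ker ((bil E).flip y) := by
    rw [Submodule.span_le]
    intro z hz
    exact comp_orth hy hyx hz
  exact this hw

end Pool.Agent.MT100.H78
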